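import Pool.Agent.H82.Cogrowth.Main

/-!
# The cogrowth series of an infinitely generated subgroup of a free group can be rational

We disprove the statement `for every m and every subgroup H of the free group of rank m the
cogrowth series of H is rational if and only if H is finitely generated`: there is a subgroup `H`
of the free group of rank `34`, not finitely generated, with cogrowth series
`(1 - 3 z^2) / (1 - 3 z^2 - 2 z^8 + 4 z^10)`.
-/

set_option autoImplicit false

namespace Pool.Agent.Results.MP_8eb3db_al.CogrowthDisproof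

/-- The cogrowth series of a subgroup `H` of the free group on `Fin m`: the coefficient of `z ^ n`
is the number of elements of `H` whose reduced word has length `n`. -/
noncomputable def cogrowthSeries {m : ℕ} (H : Subgroup (FreeGroup (Fin m))) : PowerSeries ℚ :=
  PowerSeries.mk fun n => ((Set.ncard {h : FreeGroup (Fin m) | h ∈ H ∧ h.norm = n} : ℕ) : ℚ)

/-- A power series `f` is rational if `Q f = P` for some polynomials `P` and `Q ≠ 0`. -/
def IsRationalSeries (f : PowerSeries ℚ) : Prop :=
  ∃ P Q : Polynomial ℚ, Q ≠ 0 ∧ (Q : PowerSeries ℚ) * f = (P : PowerSeries ℚ)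

/-- There are `m ≥ 1` and a subgroup `H` of the free group of rank `m` which is not finitely
generated and whose cogrowth series is rational. -/
theorem result : ∃ m : ℕ, 1 ≤ m ∧ ∃ H : Subgroup (FreeGroup (Fin m)),
    ¬ H.FG ∧ IsRationalSeries (cogrowthSeries H) := by
  refine ⟨34, by norm_num, H82.Cogrowth.HH, H82.Cogrowth.HH_not_fg,
    1 - 3 * Polynomial.X ^ 2,
    1 - 3 * Polynomial.X ^ 2 - 2 * Polynomial.X ^ 8 + 4 * Polynomial.X ^ 10, ?_, ?_⟩
  · intro h
    have := congrArg (Polynomial.eval 0) h
    simp at this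
  · have h1 : cogrowthSeries H82.Cogrowth.HH
        = PowerSeries.map (Int.castRingHom ℚ)
          ((H82.Cogrowth.treeP H82.Cogrowth.eLet H82.Cogrowth.dblS).gen [] []) := by
      ext n
      rw [cogrowthSeries, PowerSeries.coeff_mk, PowerSeries.coeff_map,
        ← H82.Cogrowth.HH_series n]
      simp
    have h2 := congrArg (PowerSeries.map (Int.castRingHom ℚ)) H82.Cogrowth.gen_rational
    rw [map_mul] at h2
    rw [h1]
    have c2 : ((2 : Polynomial ℚ) : PowerSeries ℚ) = 2 :=
      map_ofNat (Polynomial.coeToPowerSeries.ringHom (R := ℚ)) 2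
    have c3 : ((3 : Polynomial ℚ) : PowerSeries ℚ) = 3 :=
      map_ofNat (Polynomial.coeToPowerSeries.ringHom (R := ℚ)) 3
    have c4 : ((4 : Polynomial ℚ) : PowerSeries ℚ) = 4 :=
      map_ofNat (Polynomial.coeToPowerSeries.ringHom (R := ℚ)) 4
    have d2 : PowerSeries.map (Int.castRingHom ℚ) 2 = 2 := map_ofNat _ 2
    have d3 : PowerSeries.map (Int.castRingHom ℚ) 3 = 3 := map_ofNat _ 3
    have d4 : PowerSeries.map (Int.castRingHom ℚ) 4 = 4 := map_ofNat _ 4
    have h3 : ((1 - 3 * Polynomial.X ^ 2 - 2 * Polynomial.X ^ 8 + 4 * Polynomial.X ^ 10 :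
        Polynomial ℚ) : PowerSeries ℚ)
        = PowerSeries.map (Int.castRingHom ℚ)
          (1 - 3 * PowerSeries.X ^ 2 - 2 * PowerSeries.X ^ 8 + 4 * PowerSeries.X ^ 10) := by
      simp [Polynomial.coe_sub, Polynomial.coe_add, Polynomial.coe_mul, Polynomial.coe_pow,
        c2, c3, c4, d2, d3, d4]
    have h4 : ((1 - 3 * Polynomial.X ^ 2 : Polynomial ℚ) : PowerSeries ℚ)
        = PowerSeries.map (Int.castRingHom ℚ) (1 - 3 * PowerSeries.X ^ 2) := by
      simp [c3, d3]
    rw [h3, h4]
    exact h2

end Pool.Agent.Results.MP_8eb3db_al.CogrowthDisproof
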